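import Pool.Agent.H5.OR.Defs2
import Pool.Agent.H66.OR.Base

/-!
# MP_e1fd52_al, board org_modules, row BR: the affine representation of a Baumslag-Solitar group
-/

set_option autoImplicit false

open scoped Classical

namespace Pool.Agent.H1.OR

open ORg Pool.Agent.H66.OR

theorem pf_BR : T_BR := by
  intro p q hp hq
  have hpq : (q : ℚ) / p ≠ 0 :=
    div_ne_zero (by exact_mod_cast hq) (by exact_mod_cast hp)
  obtain ⟨Δ, hΔ⟩ : ∃ Δ : BS p q →* ℚˣ, Δ = bsHom (1 : ℚˣ) (Units.mk0 ((q : ℚ) / p) hpq)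
      (by rw [one_zpow, one_zpow, mul_one, mul_inv_cancel]) := ⟨_, rfl⟩
  have hΔt : ((Δ (bsT p q) : ℚˣ) : ℚ) = (q : ℚ) / p := by
    rw [hΔ, bsHom_t]
    rfl
  have hΔa : Δ (bsA p q) = 1 := by rw [hΔ, bsHom_a]
  obtain ⟨ρ, hρ⟩ : ∃ ρ : BS p q →* Equiv.Perm ℚ, ρ = rho p q hp hq := ⟨_, rfl⟩
  have hmul : ∀ g h x, ρ (g * h) x = ρ g (ρ h x) := by
    intro g h x
    rw [map_mul]
    rfl
  have hone : ∀ x, ρ 1 x = x := by
    intro x
    rw [map_one]
    rfl
  let S : Subgroup (BS p q) :=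
    { carrier := {g | ∀ x, ρ g x = ((Δ g : ℚˣ) : ℚ) * x + ρ g 0}
      mul_mem' := by
        intro g h hg hh x
        have e1 := hg (ρ h x)
        have e2 := hh x
        have e3 := hg (ρ h 0)
        rw [hmul, hmul, e1, e3, e2, map_mul, Units.val_mul]
        ring
      one_mem' := by
        intro x
        rw [hone, hone, map_one, Units.val_one]
        ring
      inv_mem' := by
        intro g hg x
        have e1 := hg (ρ g⁻¹ x)
        have e2 := hg (ρ g⁻¹ 0)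
        rw [← hmul, mul_inv_cancel, hone] at e1 e2
        have e3 : ((Δ g : ℚˣ) : ℚ) ≠ 0 := Units.ne_zero _
        rw [map_inv Δ, Units.val_inv_eq_inv_val]
        have e4 : ((Δ g : ℚˣ) : ℚ) * (ρ g⁻¹ x - ρ g⁻¹ 0) = x := by linarith
        have e5 : ρ g⁻¹ x - ρ g⁻¹ 0 = (((Δ g : ℚˣ) : ℚ))⁻¹ * x := by
          have e6 := inv_mul_cancel_left₀ e3 (ρ g⁻¹ x - ρ g⁻¹ 0)
          rw [e4] at e6
          exact e6.symm
        linarith }
  have hS : ∀ g x, ρ g x = ((Δ g : ℚˣ) : ℚ) * x + ρ g 0 := by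
    intro g
    refine bs_top S ?_ ?_ g
    · intro x
      have h1 := rho_a p q hp hq 1 x
      have h2 := rho_a p q hp hq 1 0
      rw [zpow_one, ← hρ] at h1 h2
      rw [hΔa, Units.val_one, h1, h2]
      push_cast
      ring
    · intro x
      have h1 := rho_t p q hp hq x
      have h2 := rho_t p q hp hq 0
      rw [← hρ] at h1 h2
      rw [hΔt, h1, h2]
      ring
  refine ⟨Δ, fun g => ρ g 0, hΔt, hΔa, ?_, ?_, ?_⟩
  · have h2 := rho_t p q hp hq 0
    rw [← hρ] at h2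
    change ρ (bsT p q) 0 = 0
    rw [h2, mul_zero]
  · have h2 := rho_a p q hp hq 1 0
    rw [zpow_one, ← hρ] at h2
    change ρ (bsA p q) 0 = 1
    rw [h2]
    norm_num
  · intro g h
    change ρ (g * h) 0 = ((Δ g : ℚˣ) : ℚ) * ρ h 0 + ρ g 0
    rw [hmul]
    exact hS g (ρ h 0)

end Pool.Agent.H1.OR
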